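import Pool.Agent.Helper654.PtakK

set_option autoImplicit false

open Complex Metric Set Polynomial
open scoped ComplexConjugate

namespace Pool.Agent.Results.MP_c470bc_an.Maximiser

/-- The space `H = ℂ^n` with its standard inner product. -/
abbrev H (n : ℕ) : Type := EuclideanSpace ℂ (Fin n)

/-- `F(p)`: nonconstant complex polynomials all of whose roots lie in `|z| ≤ p`. -/
def F (p : ℝ) : Set ℂ[X] := {φ | 0 < φ.natDegree ∧ ∀ z : ℂ, φ.eval z = 0 → ‖z‖ ≤ p}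

/-- The contractions `a` on `H` with `φ(a) = 0`. -/
def A (n : ℕ) (φ : ℂ[X]) : Set (H n →L[ℂ] H n) := {a | ‖a‖ ≤ 1 ∧ aeval a φ = 0}

/-- The `k`-th Taylor coefficient of `ψ` at `0`. -/
noncomputable def taylorCoeff (ψ : ℂ → ℂ) (k : ℕ) : ℂ := iteratedDeriv k ψ 0 / (k.factorial : ℂ)

/-- `ψ(a)`, given by the Taylor series of `ψ` at `0`. -/
noncomputable def funCalc {n : ℕ} (ψ : ℂ → ℂ) (a : H n →L[ℂ] H n) : H n →L[ℂ] H n :=
  ∑' k : ℕ, taylorCoeff ψ k • a ^ k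

/-- For polynomials this is the usual substitution. -/
lemma funCalc_polynomial {n : ℕ} (q : ℂ[X]) (a : H n →L[ℂ] H n) :
    funCalc (fun z => q.eval z) a = aeval a q := Pool.Agent.Helper654.Ptak.fc_poly q a

/-- The numbers `‖ψ(a)‖`, `‖a‖ ≤ 1`, `φ(a) = 0`. -/
def normSet (n : ℕ) (ψ : ℂ → ℂ) (φ : ℂ[X]) : Set ℝ := {x | ∃ a ∈ A n φ, x = ‖funCalc ψ a‖}

/-- `M_ψ(φ)`. -/
noncomputable def M (n : ℕ) (ψ : ℂ → ℂ) (φ : ℂ[X]) : ℝ := sSup (normSet n ψ φ)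

/-- The explicit upper triangular Toeplitz operator `T_α` on `ℂ^n`: diagonal entries `α`, and entry
`(1 - |α|^2) (-conj α)^(j-i-1)` in row `i` and column `j` for `i < j`. -/
noncomputable def Top (n : ℕ) (α : ℂ) : H n →L[ℂ] H n :=
  Matrix.toEuclideanCLM (𝕜 := ℂ) (Matrix.of fun i j : Fin n => if i = j then α else if i < j then
    ((1 - ‖α‖ ^ 2 : ℝ) : ℂ) * (-(conj α)) ^ ((j : ℕ) - (i : ℕ) - 1) else 0)

/-- The series defining `ψ(a)` converges absolutely for every contraction `a` with `φ(a) = 0`. -/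
def Converges (n : ℕ) (ψ : ℂ → ℂ) (φ : ℂ[X]) : Prop :=
  ∀ a ∈ A n φ, Summable fun k : ℕ => ‖taylorCoeff ψ k • a ^ k‖

/-- The number `‖ψ(T_α)‖`. -/
noncomputable def normAt (n : ℕ) (ψ : ℂ → ℂ) (α : ℂ) : ℝ := ‖funCalc ψ (Top n α)‖

/-- `α` is a point of the circle `|α| = p` at which `‖ψ(T_α)‖` is largest. -/
def IsMaxPoint (n : ℕ) (p : ℝ) (ψ : ℂ → ℂ) (α : ℂ) : Prop :=
  ‖α‖ = p ∧ ∀ β : ℂ, ‖β‖ = p → normAt n ψ β ≤ normAt n ψ α

/-- `φ` is a polynomial in `F(p)` at which `M_ψ` attains its maximum over `F(p)`. -/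
def IsMaximiser (n : ℕ) (p : ℝ) (ψ : ℂ → ℂ) (φ : ℂ[X]) : Prop :=
  φ ∈ F p ∧ ∀ φ' ∈ F p, M n ψ φ' ≤ M n ψ φ

theorem result (n : ℕ) (hn : 1 ≤ n) (p : ℝ) (hp0 : 0 < p) (hp1 : p < 1) :
    (∀ (ψ : ℂ → ℂ) (U : Set ℂ), IsOpen U → closedBall (0 : ℂ) p ⊆ U → DifferentiableOn ℂ ψ U →
      (∀ φ ∈ F p, Converges n ψ φ ∧ IsGreatest (normSet n ψ φ) (M n ψ φ)) ∧
      (∃ α : ℂ, IsMaxPoint n p ψ α) ∧
      ∀ α : ℂ, IsMaxPoint n p ψ α →
        IsMaximiser n p ψ ((X - C α) ^ n) ∧ M n ψ ((X - C α) ^ n) = normAt n ψ α) ∧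
    ∀ m : ℕ, IsMaximiser n p (fun z => z ^ m) ((X - C (p : ℂ)) ^ n) := by
  obtain ⟨m, rfl⟩ : ∃ m, n = m + 1 := ⟨n - 1, by omega⟩
  have hmemF : ∀ α : ℂ, ‖α‖ = p → (X - C α) ^ (m + 1) ∈ F p := by
    intro α hα
    refine ⟨?_, ?_⟩
    · rw [natDegree_pow, natDegree_X_sub_C]; omega
    · intro z hz
      rw [eval_pow, eval_sub, eval_X, eval_C] at hz
      have h1 : z - α = 0 := by
        by_contra hne
        exact pow_ne_zero _ hne hz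
      have h2 : z = α := by linear_combination h1
      rw [h2, hα]
  have main : ∀ (ψ : ℂ → ℂ) (U : Set ℂ), IsOpen U → closedBall (0 : ℂ) p ⊆ U → DifferentiableOn ℂ ψ U →
      (∀ φ ∈ F p, Converges (m + 1) ψ φ ∧ IsGreatest (normSet (m + 1) ψ φ) (M (m + 1) ψ φ)) ∧
      (∃ α : ℂ, IsMaxPoint (m + 1) p ψ α) ∧
      ∀ α : ℂ, IsMaxPoint (m + 1) p ψ α →
        IsMaximiser (m + 1) p ψ ((X - C α) ^ (m + 1)) ∧
          M (m + 1) ψ ((X - C α) ^ (m + 1)) = normAt (m + 1) ψ α := by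
    intro ψ U hU hpU hψ
    obtain ⟨R, hpR, hR⟩ := Pool.Agent.Helper654.Ptak.exists_radius hp0 hU hpU
    obtain ⟨s, hrs, _, K, hK⟩ := Pool.Agent.Helper654.Ptak.tay_bound hp0 hpR (hψ.mono hR)
    have hgr : ∀ φ ∈ F p, IsGreatest (normSet (m + 1) ψ φ) (M (m + 1) ψ φ) := by
      intro φ hφ
      obtain ⟨z, hz⟩ := IsAlgClosed.exists_root φ (by
        have := natDegree_pos_iff_degree_pos.mp hφ.1
        exact this.ne')
      obtain ⟨T, hT, hmax⟩ := Pool.Agent.Helper654.Ptak.attained (m := m) hp0 hp1 hrs hK φ hφ.2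
        (Pool.Agent.Helper654.Ptak.An_nonempty z ((hφ.2 z hz).trans hp1.le) hz)
      have hG : IsGreatest (normSet (m + 1) ψ φ) ‖funCalc ψ T‖ := by
        refine ⟨⟨T, hT, rfl⟩, ?_⟩
        rintro x ⟨T', hT', rfl⟩
        exact hmax T' hT'
      have h1 : M (m + 1) ψ φ = ‖funCalc ψ T‖ := hG.csSup_eq
      rw [h1]
      exact hG
    have hsum : ∀ φ ∈ F p, Converges (m + 1) ψ φ := by
      intro φ hφ a ha
      have hb := Pool.Agent.Helper654.Ptak.bd_summable (n := m + 1) hp0 hrs hK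
      have hle : ∀ k, ‖taylorCoeff ψ k • a ^ k‖ ≤
          ‖Pool.Agent.Helper654.Ptak.tay ψ k‖ * Pool.Agent.Helper654.Ptak.bd (m + 1) p k := by
        intro k
        have h1 := Pool.Agent.Helper654.Ptak.cls_pow_bound hp0 hp1 a ha.1 φ hφ.2 ha.2 k
        have h2 : ‖taylorCoeff ψ k • a ^ k‖ ≤ ‖taylorCoeff ψ k‖ * ‖a ^ k‖ :=
          norm_smul_le (taylorCoeff ψ k) (a ^ k)
        exact h2.trans (mul_le_mul_of_nonneg_left h1 (norm_nonneg _))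
      exact Summable.of_nonneg_of_le (fun k => norm_nonneg _) hle hb
    obtain ⟨a₀, ha₀, hmain⟩ := Pool.Agent.Helper654.Ptak.explicit_main (m := m) hp0 hp1 hrs
      (Pool.Agent.Helper654.Ptak.tay ψ) K hK
    have hTopMem : ∀ α : ℂ, ‖α‖ = p → Top (m + 1) α ∈ A (m + 1) ((X - C α) ^ (m + 1)) := fun α hα =>
      ⟨Pool.Agent.Helper654.Ptak.Uop_norm (m + 1) α (by rw [hα]; exact hp1.le),
        Pool.Agent.Helper654.Ptak.Uop_annih (m + 1) α⟩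
    have hmain' : ∀ φ ∈ F p, M (m + 1) ψ φ ≤ normAt (m + 1) ψ a₀ := by
      intro φ hφ
      obtain ⟨T, hT, hTe⟩ := (hgr φ hφ).1
      rw [hTe]
      exact hmain T hT.1 φ hφ.2 hT.2
    have hval : ∀ α : ℂ, ‖α‖ = p → M (m + 1) ψ ((X - C α) ^ (m + 1)) = normAt (m + 1) ψ α := by
      intro α hα
      apply le_antisymm
      · obtain ⟨T, hT, hTe⟩ := (hgr _ (hmemF α hα)).1
        rw [hTe]
        exact Pool.Agent.Helper654.Ptak.series_le_Uop hp0 hp1 hrs _ K hK α hα.le T hT.1 hT.2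
      · exact (hgr _ (hmemF α hα)).2 ⟨Top (m + 1) α, hTopMem α hα, rfl⟩
    refine ⟨fun φ hφ => ⟨hsum φ hφ, hgr φ hφ⟩, ⟨a₀, ha₀, fun β hβ => ?_⟩, ?_⟩
    · rw [← hval β hβ]
      exact hmain' _ (hmemF β hβ)
    · intro α hα
      refine ⟨⟨hmemF α hα.1, fun φ hφ => ?_⟩, hval α hα.1⟩
      rw [hval α hα.1]
      exact (hmain' φ hφ).trans (hα.2 a₀ ha₀)
  refine ⟨main, ?_⟩
  intro k
  have hd : DifferentiableOn ℂ (fun z : ℂ => z ^ k) Set.univ := by fun_prop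
  obtain ⟨_, _, h3⟩ := main (fun z => z ^ k) Set.univ isOpen_univ (subset_univ _) hd
  have hpn : ‖(p : ℂ)‖ = p := by rw [norm_real, Real.norm_eq_abs, abs_of_pos hp0]
  have hfc : ∀ T : H (m + 1) →L[ℂ] H (m + 1), funCalc (fun z => z ^ k) T = T ^ k :=
    fun T => Pool.Agent.Helper654.Ptak.fc_pow k T
  refine (h3 (p : ℂ) ⟨hpn, fun β hβ => ?_⟩).1
  unfold normAt
  rw [hfc, hfc]
  exact (Pool.Agent.Helper654.Ptak.Uop_pow_circle hp0 β hβ k).le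

end Pool.Agent.Results.MP_c470bc_an.Maximiser
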